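import Pool.Agent.K1H73.ON.Stm

set_option autoImplicit false

/-! Project ON (helper73), piece EX: existence of the exit. -/

namespace Pool.Agent.K1H75.ON

open Finset Pool.Agent.K1H73.ON

theorem nbr_ne {p q : V} (h : Nbr p q) : p ≠ q := by
  rintro rfl
  unfold Nbr at h
  simp [Prod.ext_iff] at h

theorem conn_mem {ω : Finset (Sym2 V)} {a v : V} (h : Conn ω a v) :
    v = a ∨ ∃ u, s(v, u) ∈ ω := by
  obtain ⟨p⟩ := SimpleGraph.Reachable.symm h
  cases p with
  | nil => exact Or.inl rfl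
  | cons hadj _ =>
    rw [SimpleGraph.fromEdgeSet_adj] at hadj
    exact Or.inr ⟨_, hadj.1⟩

open Classical in
theorem deg_eq (ω : Finset (Sym2 V)) (v : V) :
    deg ω v = ∑ e ∈ ω, if v ∈ e then 1 else 0 := by
  rw [← Finset.card_filter]
  unfold deg
  congr

theorem t_EX : EX := by
  classical
  intro D a b ω k hcfg ha hb
  refine Classical.epsilon_spec (p := Exit a ω k) ?_
  by_contra hno
  obtain ⟨hE, ⟨hda, hdb⟩, hdv⟩ := hcfg
  obtain ⟨ω', hω'⟩ : ∃ ω' : Finset (Sym2 V), ω' = ω.filter (fun e => ∀ v ∈ e, v ∈ R k) := ⟨_, rfl⟩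
  have hsub : ω' ⊆ ω := by rw [hω']; exact filter_subset _ _
  have hin : ∀ e ∈ ω', ∀ v ∈ e, v ∈ R k := by
    intro e he
    rw [hω', mem_filter] at he
    exact he.2
  -- points of the component are in the region
  have hCR : ∀ v, Conn ω' a v → v ∈ R k := by
    intro v hv
    rcases conn_mem hv with rfl | ⟨u, hu⟩
    · exact ha
    · exact hin _ hu v (Sym2.mem_mk_left _ _)
  -- closure
  have hcl : ∀ v u, Conn ω' a v → s(v, u) ∈ ω → v ≠ u ∧ Conn ω' a u := by
    intro v u hv he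
    have hne : v ≠ u := by
      obtain ⟨p, q, hpq, hn, -, -⟩ := hE _ he
      rintro rfl
      have h1 := nbr_ne hn
      rw [Sym2.eq_iff] at hpq
      rcases hpq with ⟨h2, h3⟩ | ⟨h2, h3⟩
      · exact h1 (h2.symm.trans h3)
      · exact h1 (h3.symm.trans h2)
    refine ⟨hne, ?_⟩
    have hu : u ∈ R k := by
      by_contra hu
      exact hno ⟨(v, u), hCR v hv, hu, he, ω', hsub, hin, hv⟩
    have he' : s(v, u) ∈ ω' := by
      rw [hω', mem_filter]
      refine ⟨he, fun x hx => ?_⟩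
      rw [Sym2.mem_iff] at hx
      rcases hx with rfl | rfl
      · exact hCR x hv
      · exact hu
    have hadj : (SimpleGraph.fromEdgeSet (ω' : Set (Sym2 V))).Adj v u := by
      rw [SimpleGraph.fromEdgeSet_adj]
      exact ⟨he', hne⟩
    exact SimpleGraph.Reachable.trans hv hadj.reachable
  obtain ⟨S, hS⟩ : ∃ S : Finset V, S = (insert a (ω.biUnion fun e => Sym2.toFinset e)).filter
    (fun v => Conn ω' a v) := ⟨_, rfl⟩
  have hmS : ∀ v, v ∈ S ↔ Conn ω' a v := by
    intro v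
    rw [hS, mem_filter]
    refine ⟨fun h => h.2, fun h => ⟨?_, h⟩⟩
    rw [mem_insert]
    rcases conn_mem h with h1 | ⟨u, hu⟩
    · exact Or.inl h1
    · right
      rw [mem_biUnion]
      exact ⟨_, hsub hu, Sym2.mem_toFinset.2 (Sym2.mem_mk_left _ _)⟩
  have haS : a ∈ S := (hmS a).2 (SimpleGraph.Reachable.refl a)
  -- double counting
  have h1 : ∑ v ∈ S, deg ω v = ∑ e ∈ ω, ∑ v ∈ S, if v ∈ e then 1 else 0 := by
    rw [Finset.sum_comm]
    exact sum_congr rfl fun v _ => deg_eq ω v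
  have h2 : Even (∑ v ∈ S, deg ω v) := by
    rw [h1]
    refine Finset.even_sum _ fun e he => ?_
    rw [← Finset.card_filter]
    by_cases ht : ∃ v ∈ e, v ∈ S
    · obtain ⟨v, hve, hvS⟩ := ht
      obtain ⟨u, rfl⟩ := hve
      obtain ⟨hne, hu⟩ := hcl v u ((hmS v).1 hvS) he
      have h3 : S.filter (fun x => x ∈ s(v, u)) = {v, u} := by
        ext x
        rw [mem_filter, Sym2.mem_iff, mem_insert, mem_singleton]
        constructor
        · exact fun h => h.2
        · rintro (rfl | rfl)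
          · exact ⟨hvS, Or.inl rfl⟩
          · exact ⟨(hmS x).2 hu, Or.inr rfl⟩
      rw [h3, card_pair hne]
      exact ⟨1, rfl⟩
    · have h3 : S.filter (fun x => x ∈ e) = ∅ := by
        rw [filter_eq_empty_iff]
        intro x hx hxe
        exact ht ⟨x, hxe, hx⟩
      rw [h3, card_empty]
      exact ⟨0, rfl⟩
  rw [← Finset.add_sum_erase S (fun v => deg ω v) haS] at h2
  have h4 : Even (∑ v ∈ S.erase a, deg ω v) := by
    refine Finset.even_sum _ fun v hv => ?_
    rw [mem_erase] at hv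
    have h5 : v ≠ b := by
      rintro rfl
      exact hb (hCR v ((hmS v).1 hv.2))
    rcases hdv v hv.1 h5 with h6 | h6
    · rw [h6]
      exact ⟨0, rfl⟩
    · rw [h6]
      exact ⟨1, rfl⟩
  have h7 : deg ω a + ∑ v ∈ S.erase a, deg ω v = 1 + ∑ v ∈ S.erase a, deg ω v := by rw [hda]
  rw [h7] at h2
  obtain ⟨x, hx⟩ := h2
  obtain ⟨y, hy⟩ := h4
  omega

end Pool.Agent.K1H75.ON
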